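import Pool.Agent.Lib.MP_5d01ce_co.Small

/-!
There is an infinite antichain of finite matroids, with one member of Tutte connectivity
exactly `k` for every positive integer `k`, none of whose members has a minor isomorphic to
the uniform matroid `U_{2,7}`.
-/

set_option autoImplicit false

namespace Pool.Agent.Results.MP_5d01ce_co.AntichainNoU27

open Pool.Agent.Lib.MP_5d01ce_co

theorem result : ∃ (E : ℕ → Type) (_ : ∀ i, Finite (E i)) (M : ∀ i, Matroid (E i)),
    (∀ i j, i ≠ j → ¬ IsoMinor (M i) (M j)) ∧
    (∀ i, tutteConnectivity (M i) = (i + 1 : ℕ)) ∧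
    (∀ i, ¬ IsoMinor (unif 2 7) (M i)) :=
  main

end Pool.Agent.Results.MP_5d01ce_co.AntichainNoU27
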